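import Pool.Agent.H57.CN.Targets

/-!
# Row FRA of the board chn_modules: limits exist
-/

set_option autoImplicit false

namespace Pool.Agent.H4.CN.FRA

open Pool.Agent.H68.BP Pool.Agent.H53.NR Pool.Agent.H57.CN
open Function

section push

variable {δ : Sig}

/-- the image structure -/
def push {X W : Type} (i : X → W) (𝕊 : Str δ X) : Str δ W :=
  fun l z => ∃ u : Fin (δ.ar l) → X, (fun q => i (u q)) = z ∧ 𝕊 l u

lemma push_iff {X W : Type} (i : X → W) (hi : Injective i) (𝕊 : Str δ X) (l : Fin δ.m)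
    (u : Fin (δ.ar l) → X) : push i 𝕊 l (fun q => i (u q)) ↔ 𝕊 l u := by
  constructor
  · rintro ⟨v, hv, h⟩
    have h1 : v = u := funext fun q => hi (congrFun hv q)
    rwa [h1] at h
  · intro h
    exact ⟨u, rfl, h⟩

lemma str_ext {X : Type} {𝕊 𝕋 : Str δ X} (h : ∀ l z, 𝕊 l z ↔ 𝕋 l z) : 𝕊 = 𝕋 :=
  funext fun l => funext fun z => propext (h l z)

/-- the image of a member of the class, on the range -/
lemma k_range (K : (X : Type) → Str δ X → Prop) (hK : KH K) {X W : Type} [Finite X] (i : X → W)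
    (hi : Injective i) (𝕊 : Str δ X) (hS : K X 𝕊) :
    K (Set.range i) (pull (push i 𝕊) Subtype.val) := by
  have h1 := hK.her (Set.range i) X (Equiv.ofInjective i hi).symm 𝕊
    (Equiv.injective _) hS
  have h2 : pull 𝕊 (Equiv.ofInjective i hi).symm =
      pull (push i 𝕊) (Subtype.val : Set.range i → W) := by
    refine str_ext fun l z => ?_
    change 𝕊 l (fun q => (Equiv.ofInjective i hi).symm (z q)) ↔
      push i 𝕊 l (fun q => (z q : W))
    have h3 : (fun q => (z q : W)) = fun q => i ((Equiv.ofInjective i hi).symm (z q)) := by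
      funext q
      rw [Equiv.apply_ofInjective_symm hi]
    rw [h3, push_iff i hi]
  rwa [h2] at h1

end push

/-- the states of the construction -/
structure St {δ : Sig} (K : (X : Type) → Str δ X → Prop) (𝕏 : Str δ Unit) where
  k : ℕ
  S : Str δ ℕ
  ok : K (Fin k) (pull S Fin.val)
  nul : ∀ l (z : Fin (δ.ar l) → ℕ), IsEmpty (Fin (δ.ar l)) → (S l z ↔ 𝕏 l (fun _ => ()))

section main

variable {δ : Sig} {K : (X : Type) → Str δ X → Prop} {𝕏 : Str δ Unit}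

instance : Preorder (St K 𝕏) where
  le s t := s.k ≤ t.k ∧ ∀ l (z : Fin (δ.ar l) → ℕ), (∀ i, z i < s.k) → (s.S l z ↔ t.S l z)
  le_refl s := ⟨le_rfl, fun _ _ _ => Iff.rfl⟩
  le_trans s t u h1 h2 := ⟨h1.1.trans h2.1, fun l z hz =>
    (h1.2 l z hz).trans (h2.2 l z fun i => (hz i).trans_le h1.1)⟩

lemma le_iff (s t : St K 𝕏) : s ≤ t ↔
    s.k ≤ t.k ∧ ∀ l (z : Fin (δ.ar l) → ℕ), (∀ i, z i < s.k) → (s.S l z ↔ t.S l z) := Iff.rfl

/-- one step -/
lemma step (hK : KH K) (s : St K 𝕏) (n : ℕ) (A : Set (Fin n)) (x : Fin n → ℕ)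
    (𝕎 : Str δ (Fin n)) (hx : Set.InjOn x A) (hxk : ∀ a ∈ A, x a < s.k) (hW : K (Fin n) 𝕎)
    (hag : ∀ l (z : Fin (δ.ar l) → Fin n), (∀ i, z i ∈ A) → (s.S l (fun i => x (z i)) ↔ 𝕎 l z)) :
    ∃ t : St K 𝕏, s ≤ t ∧ ∃ y : Fin n → ℕ, Injective y ∧ (∀ a, y a < t.k) ∧
      (∀ a ∈ A, y a = x a) ∧ (∀ a, a ∉ A → s.k ≤ y a) ∧ pull t.S y = 𝕎 := by
  classical
  -- the two embeddings
  let W : Type := Fin s.k ⊕ {a : Fin n // a ∉ A}
  let i1 : Fin s.k → W := Sum.inl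
  let i2 : Fin n → W := fun a => if h : a ∈ A then Sum.inl ⟨x a, hxk a h⟩ else Sum.inr ⟨a, h⟩
  have e1 : ∀ (a : Fin n) (h : a ∈ A), i2 a = Sum.inl ⟨x a, hxk a h⟩ := fun a h => dif_pos h
  have e2 : ∀ (a : Fin n) (h : a ∉ A), i2 a = Sum.inr ⟨a, h⟩ := fun a h => dif_neg h
  have hi1 : Injective i1 := Sum.inl_injective
  have hi2 : Injective i2 := by
    intro a b hab
    by_cases ha : a ∈ A
    · by_cases hb : b ∈ A
      · rw [e1 a ha, e1 b hb] at hab
        have h3 := congrArg Fin.val (Sum.inl.inj hab)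
        exact hx ha hb h3
      · rw [e1 a ha, e2 b hb] at hab
        exact absurd hab (by simp)
    · by_cases hb : b ∈ A
      · rw [e2 a ha, e1 b hb] at hab
        exact absurd hab (by simp)
      · rw [e2 a ha, e2 b hb] at hab
        exact congrArg Subtype.val (Sum.inr.inj hab)
  have hun : ∀ w : W, w ∈ Set.range i1 ∨ w ∈ Set.range i2 := by
    rintro (a | ⟨a, ha⟩)
    · exact Or.inl ⟨a, rfl⟩
    · exact Or.inr ⟨a, e2 a ha⟩
  have hagr : AgO (Set.range i1 ∩ Set.range i2) (push i1 (pull s.S Fin.val)) (push i2 𝕎) := by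
    intro l z hz
    have h1 : ∀ q, ∃ a, a ∈ A ∧ i2 a = z q := by
      intro q
      obtain ⟨⟨b, hb⟩, ⟨a, ha⟩⟩ := hz q
      refine ⟨a, ?_, ha⟩
      by_contra hA
      rw [e2 a hA, ← hb] at ha
      exact absurd ha (by simp [i1])
    choose u huA hu using h1
    have h2 : z = fun q => i2 (u q) := funext fun q => (hu q).symm
    have h3 : z = fun q => i1 ⟨x (u q), hxk _ (huA q)⟩ := by
      funext q
      rw [← hu q, e1 _ (huA q)]
    have h4 : push i2 𝕎 l z ↔ 𝕎 l u := by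
      rw [h2]
      exact push_iff i2 hi2 𝕎 l u
    have h5 : push i1 (pull s.S Fin.val) l z ↔
        pull s.S Fin.val l (fun q => ⟨x (u q), hxk _ (huA q)⟩) := by
      rw [h3]
      exact push_iff i1 hi1 (pull s.S Fin.val) l (fun q => ⟨x (u q), hxk _ (huA q)⟩)
    rw [h4, h5]
    exact hag l u huA
  obtain ⟨ℤ', hZ, hZ1, hZ2⟩ := hK.amg W (Set.range i1) (Set.range i2) (push i1 (pull s.S Fin.val))
    (push i2 𝕎) hun (k_range K hK i1 hi1 _ s.ok) (k_range K hK i2 hi2 _ hW) hagr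
  -- transport to the natural numbers
  let c : ℕ := Fintype.card {a : Fin n // a ∉ A}
  let e : W ≃ Fin (s.k + c) :=
    (Equiv.sumCongr (Equiv.refl _) (Fintype.equivFin {a : Fin n // a ∉ A})).trans finSumFinEquiv
  have he1 : ∀ b : Fin s.k, ((e (Sum.inl b) : Fin (s.k + c)) : ℕ) = b := by
    intro b
    change ((finSumFinEquiv (Sum.inl b) : Fin (s.k + c)) : ℕ) = b
    rw [finSumFinEquiv_apply_left]
    rfl
  have he2 : ∀ b : {a : Fin n // a ∉ A}, s.k ≤ ((e (Sum.inr b) : Fin (s.k + c)) : ℕ) := by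
    intro b
    change s.k ≤ ((finSumFinEquiv (Sum.inr (Fintype.equivFin {a : Fin n // a ∉ A} b)) :
      Fin (s.k + c)) : ℕ)
    rw [finSumFinEquiv_apply_right]
    exact Nat.le_add_right _ _
  let j : W → ℕ := fun w => (e w : ℕ)
  have hj : Injective j := fun a b hab => e.injective (Fin.ext hab)
  have hjl : ∀ w, j w < s.k + c := fun w => (e w).2
  have hpj : ∀ l (u : Fin (δ.ar l) → W), push j ℤ' l (fun q => j (u q)) ↔ ℤ' l u := fun l u =>
    push_iff j hj ℤ' l u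
  have hok : K (Fin (s.k + c)) (pull (push j ℤ') Fin.val) := by
    have h1 := hK.her (Fin (s.k + c)) W e.symm ℤ' e.symm.injective hZ
    have h2 : pull ℤ' e.symm = pull (push j ℤ') (Fin.val : Fin (s.k + c) → ℕ) := by
      refine str_ext fun l z => ?_
      change ℤ' l (fun q => e.symm (z q)) ↔ push j ℤ' l (fun q => (z q : ℕ))
      have h3 : (fun q => (z q : ℕ)) = fun q => j (e.symm (z q)) := by
        funext q
        change (z q : ℕ) = (e (e.symm (z q)) : ℕ)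
        rw [Equiv.apply_symm_apply]
      rw [h3, hpj]
    rwa [h2] at h1
  have hold : ∀ l (z : Fin (δ.ar l) → ℕ), (∀ i, z i < s.k) → (s.S l z ↔ push j ℤ' l z) := by
    intro l z hz
    have h3 : z = fun q => j (i1 ⟨z q, hz q⟩) := by
      funext q
      exact (he1 ⟨z q, hz q⟩).symm
    have h4 : push j ℤ' l z ↔ ℤ' l (fun q => i1 ⟨z q, hz q⟩) := by
      conv_lhs => rw [h3]
      exact hpj l _
    rw [h4, hZ1 l _ (fun q => ⟨_, rfl⟩), push_iff i1 hi1]
    exact Iff.rfl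
  refine ⟨⟨s.k + c, push j ℤ', hok, ?_⟩, ⟨Nat.le_add_right _ _, hold⟩, fun a => j (i2 a), ?_, ?_,
    ?_, ?_, ?_⟩
  · intro l z hE
    rw [← s.nul l z hE]
    exact (hold l z fun i => hE.elim i).symm
  · exact fun a b hab => hi2 (hj hab)
  · exact fun a => hjl _
  · intro a ha
    change j (i2 a) = x a
    rw [e1 a ha]
    exact he1 ⟨x a, hxk a ha⟩
  · intro a ha
    change s.k ≤ j (i2 a)
    rw [e2 a ha]
    exact he2 ⟨a, ha⟩
  · refine str_ext fun l z => ?_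
    change push j ℤ' l (fun q => j (i2 (z q))) ↔ 𝕎 l z
    rw [hpj, hZ2 l _ (fun q => ⟨_, rfl⟩), push_iff i2 hi2]

/-- one more point -/
lemma grow1 (hK : KH K) (hX : K Unit 𝕏) (s : St K 𝕏) : ∃ t : St K 𝕏, s ≤ t ∧ s.k < t.k := by
  have hW : K (Fin 1) (pull 𝕏 (fun _ : Fin 1 => ())) :=
    hK.her (Fin 1) Unit (fun _ => ()) 𝕏 (fun a b _ => Subsingleton.elim a b) hX
  obtain ⟨t, hst, y, -, hy, -, hyk, -⟩ := step hK s 1 ∅ (fun _ => 0)
    (pull 𝕏 (fun _ : Fin 1 => ())) (Set.injOn_empty _) (fun a ha => absurd ha (by simp)) hW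
    (by
      intro l z hz
      have hE : IsEmpty (Fin (δ.ar l)) := ⟨fun i => by simpa using hz i⟩
      exact s.nul l _ hE)
  exact ⟨t, hst, (hyk 0 (by simp)).trans_lt (hy 0)⟩

/-- many more points -/
lemma grow (hK : KH K) (hX : K Unit 𝕏) (s : St K 𝕏) : ∀ N : ℕ, ∃ t : St K 𝕏, s ≤ t ∧ N ≤ t.k
  | 0 => ⟨s, le_rfl, Nat.zero_le _⟩
  | N + 1 => by
    obtain ⟨t, h1, h2⟩ := grow hK hX s N
    obtain ⟨u, h3, h4⟩ := grow1 hK hX t
    exact ⟨u, h1.trans h3, Nat.succ_le_of_lt (h2.trans_lt h4)⟩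

/-- the tasks -/
abbrev Task (δ : Sig) : Type := Σ n : ℕ, Set (Fin n) × (Fin n → ℕ) × Str δ (Fin n)

instance (n : ℕ) : Finite (Str δ (Fin n)) :=
  inferInstanceAs (Finite ((l : Fin δ.m) → (Fin (δ.ar l) → Fin n) → Prop))

instance : Countable (Task δ) := inferInstance

/-- the states which have done a task -/
def Dn (K : (X : Type) → Str δ X → Prop) (𝕏 : Str δ Unit) (T : Task δ) : Set (St K 𝕏) :=
  {s | (∀ a ∈ T.2.1, T.2.2.1 a < s.k) ∧ (Set.InjOn T.2.2.1 T.2.1 → K (Fin T.1) T.2.2.2 →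
    (∀ l (z : Fin (δ.ar l) → Fin T.1), (∀ i, z i ∈ T.2.1) →
      (s.S l (fun i => T.2.2.1 (z i)) ↔ T.2.2.2 l z)) →
    ∃ y : Fin T.1 → ℕ, Injective y ∧ (∀ a, y a < s.k) ∧ (∀ a ∈ T.2.1, y a = T.2.2.1 a) ∧
      pull s.S y = T.2.2.2)}

lemma dn_cof (hK : KH K) (hX : K Unit 𝕏) (T : Task δ) : IsCofinal (Dn K 𝕏 T) := by
  classical
  intro s
  obtain ⟨n, A, x, 𝕎⟩ := T
  obtain ⟨t, hst, ht⟩ := grow hK hX s ((Finset.univ.sup x) + 1)
  have hxt : ∀ a, x a < t.k := fun a =>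
    (Nat.lt_succ_of_le (Finset.le_sup (Finset.mem_univ a))).trans_le ht
  by_cases hc : Set.InjOn x A ∧ K (Fin n) 𝕎 ∧ ∀ l (z : Fin (δ.ar l) → Fin n), (∀ i, z i ∈ A) →
      (t.S l (fun i => x (z i)) ↔ 𝕎 l z)
  · obtain ⟨c1, c2, c3⟩ := hc
    obtain ⟨u, htu, y, h1, h2, h3, -, h5⟩ := step hK t n A x 𝕎 c1 (fun a _ => hxt a) c2 c3
    refine ⟨u, ⟨fun a _ => (hxt a).trans_le htu.1, fun _ _ _ => ⟨y, h1, h2, h3, h5⟩⟩,
      hst.trans htu⟩
  · refine ⟨t, ⟨fun a _ => hxt a, fun c1 c2 c3 => absurd ⟨c1, c2, c3⟩ hc⟩, hst⟩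

end main

theorem pf_FRA : T_FRA := by
  classical
  intro δ K hK
  obtain ⟨𝕏, hX⟩ := hK.one
  -- the first state
  have hok : K (Fin 0) (pull (fun l (_ : Fin (δ.ar l) → ℕ) => 𝕏 l (fun _ => ()) : Str δ ℕ)
      Fin.val) := by
    have h1 := hK.her (Fin 0) Unit (fun _ => ()) 𝕏 (fun a b _ => Subsingleton.elim a b) hX
    exact h1
  let s0 : St K 𝕏 := ⟨0, fun l _ => 𝕏 l (fun _ => ()), hok, fun l z _ => Iff.rfl⟩
  haveI hen : Encodable (Task δ) := Encodable.ofCountable _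
  let 𝒟 : Task δ → Order.Cofinal (St K 𝕏) := fun T => ⟨Dn K 𝕏 T, dn_cof hK hX T⟩
  let σ : ℕ → St K 𝕏 := Order.sequenceOfCofinals s0 𝒟
  have hmono : Monotone σ := Order.sequenceOfCofinals.monotone s0 𝒟
  have hmeet : ∀ T : Task δ, ∃ t, σ t ∈ Dn K 𝕏 T := fun T =>
    ⟨_, Order.sequenceOfCofinals.encode_mem s0 𝒟 T⟩
  have hbig : ∀ N : ℕ, ∃ t, N < (σ t).k := by
    intro N
    obtain ⟨t, ht⟩ := hmeet ⟨1, Set.univ, fun _ => N, fun _ _ => True⟩
    exact ⟨t, ht.1 0 (Set.mem_univ _)⟩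
  let 𝔻 : Str δ ℕ := fun l z => ∃ t, (∀ i, z i < (σ t).k) ∧ (σ t).S l z
  have hD : ∀ (t : ℕ) (l : Fin δ.m) (z : Fin (δ.ar l) → ℕ), (∀ i, z i < (σ t).k) →
      (𝔻 l z ↔ (σ t).S l z) := by
    intro t l z hz
    constructor
    · rintro ⟨t', hz', h⟩
      rcases le_total t t' with h1 | h1
      · exact ((hmono h1).2 l z hz).2 h
      · exact ((hmono h1).2 l z hz').1 h
    · intro h
      exact ⟨t, hz, h⟩
  refine ⟨𝔻, ?_, ?_⟩
  · intro X _ f hf
    have := Fintype.ofFinite X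
    obtain ⟨t, ht⟩ := hbig (Finset.univ.sup f)
    have hlt : ∀ a, f a < (σ t).k := fun a =>
      (Finset.le_sup (f := f) (Finset.mem_univ a)).trans_lt ht
    have h1 := hK.her X (Fin (σ t).k) (fun a => ⟨f a, hlt a⟩) (pull (σ t).S Fin.val)
      (fun a b hab => hf (congrArg Fin.val hab)) (σ t).ok
    have h2 : pull (pull (σ t).S Fin.val) (fun a => (⟨f a, hlt a⟩ : Fin (σ t).k)) = pull 𝔻 f := by
      refine str_ext fun l z => ?_
      change (σ t).S l (fun i => f (z i)) ↔ 𝔻 l (fun i => f (z i))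
      exact (hD t l _ fun i => hlt _).symm
    rwa [h2] at h1
  · intro W _ A x 𝕎 hx hW hag
    obtain ⟨n, ⟨e⟩⟩ := Finite.exists_equiv_fin W
    obtain ⟨t, ht1, ht2⟩ := hmeet ⟨n, e.symm ⁻¹' A, fun a => x (e.symm a), pull 𝕎 e.symm⟩
    obtain ⟨y, hy1, hy2, hy3, hy4⟩ := ht2
      (by
        intro a ha b hb hab
        exact e.symm.injective (hx ha hb hab))
      (hK.her (Fin n) W e.symm 𝕎 e.symm.injective hW)
      (by
        intro l z hz
        change (σ t).S l (fun i => x (e.symm (z i))) ↔ 𝕎 l (fun i => e.symm (z i))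
        rw [← hag l (fun i => e.symm (z i)) hz]
        exact (hD t l _ fun i => ht1 _ (hz i)).symm)
    refine ⟨fun w => y (e w), fun a b hab => e.injective (hy1 hab), ?_, ?_⟩
    · intro a ha
      have h1 := hy3 (e a) (by
        change e.symm (e a) ∈ A
        rwa [Equiv.symm_apply_apply])
      change y (e a) = x a
      rw [h1]
      change x (e.symm (e a)) = x a
      rw [Equiv.symm_apply_apply]
    · refine str_ext fun l z => ?_
      change 𝔻 l (fun i => y (e (z i))) ↔ 𝕎 l z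
      rw [hD t l _ fun i => hy2 _]
      have h1 := congrFun (congrFun hy4 l) (fun i => e (z i))
      have h2 : pull (σ t).S y l (fun i => e (z i)) = (σ t).S l (fun i => y (e (z i))) := rfl
      have h3 : pull 𝕎 e.symm l (fun i => e (z i)) = 𝕎 l z := by
        change 𝕎 l (fun i => e.symm (e (z i))) = 𝕎 l z
        congr 1
        funext i
        rw [Equiv.symm_apply_apply]
      rw [← h2, h1]
      change pull 𝕎 e.symm l (fun i => e (z i)) ↔ 𝕎 l z
      rw [h3]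

end Pool.Agent.H4.CN.FRA
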